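import Pool.Agent.Helper52.SG.Goals2

/-!
# Project SG (MP_0a002a_al), packet ENDL: counting in a group of order `r²`
-/

set_option autoImplicit false

namespace Pool.Agent.Helper87.SG.ENDL

open Subgroup Pool.H83Shunkov Pool.Agent.Helper29.SH Pool.Agent.Helper52.SG

/-- Fixed points of a self map of order a power of `r`. -/
theorem card_fixed {α : Type} [Finite α] {r n : ℕ} (hr : r.Prime) (f : α → α)
    (hf : ∀ a, f^[r ^ n] a = a) :
    Nat.card α ≡ Nat.card {a : α // f a = a} [MOD r] := by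
  classical
  have : Fact r.Prime := ⟨hr⟩
  have : Fintype α := Fintype.ofFinite α
  let F : Function.End α := f
  have hpow : ∀ k : ℕ, F ^ k = (f^[k] : α → α) := by
    intro k
    induction k with
    | zero => rfl
    | succ k ih =>
      rw [pow_succ, ih]
      rfl
  have h := Equiv.Perm.card_fixedPoints_modEq (α := α) (f := F) (p := r) (n := n) (by
    rw [hpow]
    funext a
    exact hf a)
  rw [Nat.card_eq_fintype_card, Nat.card_eq_fintype_card]
  have e : Fintype.card (Function.fixedPoints f) = Fintype.card {a : α // f a = a} :=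
    Fintype.card_congr (Equiv.refl _)
  rw [← e]
  exact h

theorem card_ne_one {V : Type} [Group V] [Finite V] (K : Subgroup V) :
    Nat.card {y : V // y ∈ K ∧ y ≠ 1} = Nat.card K - 1 := by
  have h1 : ((K : Set V) \ {1}).ncard = (K : Set V).ncard - 1 :=
    Set.ncard_sdiff_singleton_of_mem K.one_mem
  have h2 : Nat.card ((K : Set V) \ {1} : Set V) = ((K : Set V) \ {1}).ncard :=
    Nat.card_coe_set_eq _
  have h3 : Nat.card (K : Set V) = (K : Set V).ncard := Nat.card_coe_set_eq _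
  rw [← h2, ← h3] at h1
  exact h1

/-- Packet ENDL. -/
theorem t : S_ENDL := by
  intro V _ _ r hr hr2 hV Q x Y hQ habel hrQ hxn hinv hcen hmin hY hQY hxY hfix hcard
  have hfactr : Fact r.Prime := ⟨hr⟩
  obtain ⟨n, hxn⟩ := hxn
  -- the fixed points
  let F : Subgroup V :=
    { carrier := {y | y ∈ Y ∧ x y = y}
      one_mem' := ⟨Y.one_mem, map_one x⟩
      mul_mem' := by
        rintro a b ⟨ha, ha'⟩ ⟨hb, hb'⟩
        exact ⟨Y.mul_mem ha hb, by rw [map_mul, ha', hb']⟩
      inv_mem' := by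
        rintro a ⟨ha, ha'⟩
        exact ⟨Y.inv_mem ha, by rw [map_inv, ha']⟩ }
  have hF : ∀ y, y ∈ F ↔ y ∈ Y ∧ x y = y := fun y => Iff.rfl
  have hcard' : Nat.card Y ≤ r * Nat.card F := hcard
  clear hcard
  -- (1)
  have key1 : ∀ g ∈ Q, ∀ h ∈ Q, g ≠ h → ∀ y ∈ Y, x (g y) = g y → x (h y) = h y → y = 1 := by
    intro g hg h hh hgh y hy hgy hhy
    let D : Subgroup (MulAut V) :=
      { carrier := {d | d y = y}
        one_mem' := rfl
        mul_mem' := by
          intro a b ha hb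
          have ha' : a y = y := ha
          have hb' : b y = y := hb
          show (a * b) y = y
          rw [MulAut.mul_apply, hb', ha']
        inv_mem' := by
          intro a ha
          have ha' : a y = y := ha
          show a⁻¹ y = y
          have := MulAut.inv_apply_self V a y
          rwa [ha'] at this }
    have hD : ∀ d, d ∈ D ↔ d y = y := fun d => Iff.rfl
    have hgD : g⁻¹ * x * g ∈ D := by
      rw [hD, MulAut.mul_apply, MulAut.mul_apply, hgy, MulAut.inv_apply_self]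
    have hhD : h⁻¹ * x * h ∈ D := by
      rw [hD, MulAut.mul_apply, MulAut.mul_apply, hhy, MulAut.inv_apply_self]
    have hQ' : ∀ q ∈ D ⊓ Q, x⁻¹ * q * x ∈ D ⊓ Q := by
      rintro q ⟨hqD, hqQ⟩
      have hwQ := hinv q hqQ
      refine ⟨?_, hwQ⟩
      have e1 : q * g = g * q := habel q hqQ g hg
      have e2 : (x⁻¹ * q * x) * g = g * (x⁻¹ * q * x) := habel _ hwQ g hg
      have e3 : (g⁻¹ * x * g)⁻¹ * q * (g⁻¹ * x * g) = x⁻¹ * q * x := by
        calc (g⁻¹ * x * g)⁻¹ * q * (g⁻¹ * x * g)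
            = g⁻¹ * x⁻¹ * (g * q) * g⁻¹ * x * g := by group
          _ = g⁻¹ * x⁻¹ * (q * g) * g⁻¹ * x * g := by rw [e1]
          _ = g⁻¹ * ((x⁻¹ * q * x) * g) := by group
          _ = g⁻¹ * (g * (x⁻¹ * q * x)) := by rw [e2]
          _ = x⁻¹ * q * x := by group
      rw [← e3]
      exact D.mul_mem (D.mul_mem (D.inv_mem hgD) hqD) hgD
    rcases hmin (D ⊓ Q) inf_le_right hQ' with h0 | h1
    · exfalso
      have hkQ : g * h⁻¹ ∈ Q := Q.mul_mem hg (Q.inv_mem hh)
      have huQ : g⁻¹ * (x⁻¹ * (g * h⁻¹) * x) * h ∈ Q :=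
        Q.mul_mem (Q.mul_mem (Q.inv_mem hg) (hinv _ hkQ)) hh
      have huD : g⁻¹ * (x⁻¹ * (g * h⁻¹) * x) * h ∈ D := by
        have e : g⁻¹ * (x⁻¹ * (g * h⁻¹) * x) * h = (g⁻¹ * x * g)⁻¹ * (h⁻¹ * x * h) := by group
        rw [e]
        exact D.mul_mem (D.inv_mem hgD) hhD
      have hu1 : g⁻¹ * (x⁻¹ * (g * h⁻¹) * x) * h = 1 := by
        have hm : g⁻¹ * (x⁻¹ * (g * h⁻¹) * x) * h ∈ D ⊓ Q := ⟨huD, huQ⟩
        rw [h0] at hm
        exact mem_bot.1 hm
      have e4 : x⁻¹ * (g * h⁻¹) * x = g * h⁻¹ := by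
        calc x⁻¹ * (g * h⁻¹) * x = g * (g⁻¹ * (x⁻¹ * (g * h⁻¹) * x) * h) * h⁻¹ := by group
          _ = g * 1 * h⁻¹ := by rw [hu1]
          _ = g * h⁻¹ := by group
      have e5 : x * (g * h⁻¹) = (g * h⁻¹) * x := by
        calc x * (g * h⁻¹) = x * (x⁻¹ * (g * h⁻¹) * x) := by rw [e4]
          _ = (g * h⁻¹) * x := by group
      have e6 := hcen _ hkQ e5
      exact hgh (mul_inv_eq_one.1 e6)
    · apply hfix y hy
      intro q hq
      have : q ∈ D ⊓ Q := by rw [h1]; exact hq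
      exact this.1
  have hFY : F ≤ Y := fun y hy => hy.1
  have hcpos : 0 < Nat.card F := Nat.card_pos
  -- (2)
  have hcc : Nat.card F * Nat.card F ≤ Nat.card Y := by
    obtain ⟨g, hg, hg1⟩ : ∃ g : MulAut V, g ∈ Q ∧ g ≠ 1 := by
      obtain ⟨a, ha⟩ := (Subgroup.ne_bot_iff_exists_ne_one (H := Q)).1 hQ
      exact ⟨(a : MulAut V), a.2, fun h => ha (Subtype.ext h)⟩
    rw [← Nat.card_prod]
    refine Nat.card_le_card_of_injective
      (fun p : F × F => (⟨(p.1 : V) * g⁻¹ (p.2 : V),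
        Y.mul_mem (hFY p.1.2) (hQY _ (Q.inv_mem hg) _ (hFY p.2.2))⟩ : Y)) ?_
    rintro ⟨a, b⟩ ⟨a', b'⟩ hab
    have hab' : (a : V) * g⁻¹ (b : V) = (a' : V) * g⁻¹ (b' : V) := congrArg Subtype.val hab
    have hz : (a' : V)⁻¹ * a = g⁻¹ ((b' : V) * (b : V)⁻¹) := by
      rw [map_mul, map_inv]
      calc (a' : V)⁻¹ * a = (a' : V)⁻¹ * ((a : V) * g⁻¹ (b : V)) * (g⁻¹ (b : V))⁻¹ := by group
        _ = (a' : V)⁻¹ * ((a' : V) * g⁻¹ (b' : V)) * (g⁻¹ (b : V))⁻¹ := by rw [hab']
        _ = g⁻¹ (b' : V) * (g⁻¹ (b : V))⁻¹ := by group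
    have hzF : (a' : V)⁻¹ * a ∈ F := F.mul_mem (F.inv_mem a'.2) a.2
    have hgz : g ((a' : V)⁻¹ * a) ∈ F := by
      rw [hz, MulAut.apply_inv_self]
      exact F.mul_mem b'.2 (F.inv_mem b.2)
    have hz1 : (a' : V)⁻¹ * a = 1 :=
      key1 g hg 1 Q.one_mem hg1 _ hzF.1 hgz.2 hzF.2
    have haa : a = a' := Subtype.ext (inv_mul_eq_one.1 hz1).symm
    have hbb : b = b' := by
      rw [hz1] at hz
      have h2 : (b' : V) * (b : V)⁻¹ = 1 := by
        have h3 := congrArg g hz
        rw [MulAut.apply_inv_self, map_one] at h3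
        exact h3.symm
      exact Subtype.ext (mul_inv_eq_one.1 h2).symm
    rw [haa, hbb]
  have hcr : Nat.card F ≤ r := by
    have : Nat.card F * Nat.card F ≤ r * Nat.card F := hcc.trans hcard'
    exact Nat.le_of_mul_le_mul_right this hcpos
  have hxpow : ∀ (k : ℕ) (y : V), x^[k] y = (x ^ k) y := by
    intro k
    induction k with
    | zero => intro y; rfl
    | succ k ih =>
      intro y
      rw [Function.iterate_succ_apply, ih, pow_succ, MulAut.mul_apply]
  have hmod : Nat.card Y ≡ Nat.card F [MOD r] := by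
    let f : Y → Y := fun y => ⟨x y, hxY _ y.2⟩
    have hfk : ∀ (k : ℕ) (y : Y), ((f^[k] y : Y) : V) = x^[k] (y : V) := by
      intro k
      induction k with
      | zero => intro y; rfl
      | succ k ih =>
        intro y
        rw [Function.iterate_succ_apply, ih, Function.iterate_succ_apply]
    have h := card_fixed (n := n) hr f (by
      intro y
      apply Subtype.ext
      rw [hfk, hxpow, hxn]
      rfl)
    refine h.trans ?_
    have e : Nat.card {a : Y // f a = a} = Nat.card F := by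
      refine Nat.card_congr
        { toFun := fun a => ⟨(a : Y), (hF _).2 ⟨(a : Y).2, congrArg Subtype.val a.2⟩⟩
          invFun := fun b => ⟨⟨(b : V), hFY b.2⟩, Subtype.ext b.2.2⟩
          left_inv := fun a => rfl
          right_inv := fun b => rfl }
    rw [e]
  have hrY : r ∣ Nat.card Y := by
    obtain ⟨m, hm⟩ := (hV.to_subgroup Y).exists_card_eq
    rw [hm]
    rcases Nat.eq_zero_or_pos m with h0 | h0
    · exfalso
      rw [h0, pow_zero] at hm
      exact hY (Subgroup.card_eq_one.1 hm)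
    · exact dvd_pow_self r h0.ne'
  have hrF : r ∣ Nat.card F := (Nat.modEq_zero_iff_dvd.1 (hmod.symm.trans
    (Nat.modEq_zero_iff_dvd.2 hrY)))
  have hc : Nat.card F = r := le_antisymm hcr (Nat.le_of_dvd hcpos hrF)
  have hYr : Nat.card Y = r * r := by
    rw [hc] at hcc hcard'
    exact le_antisymm hcard' hcc
  -- (3)
  have hQmod : Nat.card Q ≡ 1 [MOD r] := by
    let f : Q → Q := fun q => ⟨x⁻¹ * q * x, hinv _ q.2⟩
    have hfk : ∀ (k : ℕ) (q : Q), ((f^[k] q : Q) : MulAut V) = (x ^ k)⁻¹ * q * x ^ k := by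
      intro k
      induction k with
      | zero => intro q; simp
      | succ k ih =>
        intro q
        rw [Function.iterate_succ_apply, ih, pow_succ]
        show (x ^ k)⁻¹ * (x⁻¹ * (q : MulAut V) * x) * x ^ k = _
        have e : x * x ^ k = x ^ k * x := (pow_succ' x k).symm.trans (pow_succ x k)
        calc (x ^ k)⁻¹ * (x⁻¹ * (q : MulAut V) * x) * x ^ k
            = (x * x ^ k)⁻¹ * q * (x * x ^ k) := by group
          _ = (x ^ k * x)⁻¹ * q * (x ^ k * x) := by rw [e]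
    have h := card_fixed (n := n) hr f (by
      intro q
      apply Subtype.ext
      rw [hfk, hxn]
      simp)
    refine h.trans ?_
    have e : Nat.card {a : Q // f a = a} = 1 := by
      rw [Nat.card_eq_one_iff_unique]
      refine ⟨⟨?_⟩, ⟨⟨1, by
        apply Subtype.ext
        show x⁻¹ * (1 : MulAut V) * x = 1
        group⟩⟩⟩
      have hone : ∀ a : {a : Q // f a = a}, ((a : Q) : MulAut V) = 1 := by
        intro a
        have ha : x⁻¹ * ((a : Q) : MulAut V) * x = ((a : Q) : MulAut V) := congrArg Subtype.val a.2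
        apply hcen _ (a : Q).2
        calc x * ((a : Q) : MulAut V) = x * (x⁻¹ * ((a : Q) : MulAut V) * x) := by rw [ha]
          _ = ((a : Q) : MulAut V) * x := by group
      intro a b
      apply Subtype.ext
      apply Subtype.ext
      rw [hone a, hone b]
    rw [e]
  have hQ1 : 1 < Nat.card Q := by
    have hpos : 0 < Nat.card Q := Nat.card_pos
    have hne : Nat.card Q ≠ 1 := fun h => hQ (Subgroup.card_eq_one.1 h)
    omega
  let Φ : Q × {y : V // y ∈ F ∧ y ≠ 1} → {z : V // z ∈ Y ∧ z ≠ 1} := fun p =>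
    ⟨(p.1 : MulAut V)⁻¹ (p.2 : V), hQY _ (Q.inv_mem p.1.2) _ (hFY p.2.2.1), by
      intro h
      apply p.2.2.2
      have := congrArg (p.1 : MulAut V) h
      rwa [MulAut.apply_inv_self, map_one] at this⟩
  have hΦ : Function.Injective Φ := by
    rintro ⟨g, y⟩ ⟨h, y'⟩ hgh
    have hz : (g : MulAut V)⁻¹ (y : V) = (h : MulAut V)⁻¹ (y' : V) := congrArg Subtype.val hgh
    have hg0 : (g : MulAut V) ((g : MulAut V)⁻¹ (y : V)) = y := MulAut.apply_inv_self _ _ _
    have hh0 : (h : MulAut V) ((g : MulAut V)⁻¹ (y : V)) = y' := by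
      rw [hz, MulAut.apply_inv_self]
    by_cases hEq : g = h
    · subst hEq
      have : (y : V) = y' := by
        rw [← hg0, hh0]
      have hyy : y = y' := Subtype.ext this
      rw [hyy]
    · exfalso
      have h1 := key1 g g.2 h h.2 (fun h => hEq (Subtype.ext h)) ((g : MulAut V)⁻¹ (y : V))
        (hQY _ (Q.inv_mem g.2) _ (hFY y.2.1)) (by rw [hg0]; exact y.2.1.2)
        (by rw [hh0]; exact y'.2.1.2)
      apply y.2.2
      rw [← hg0, h1, map_one]
  have hcardle := Nat.card_le_card_of_injective Φ hΦ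
  rw [Nat.card_prod, card_ne_one, card_ne_one, hc, hYr] at hcardle
  have hrge : 2 ≤ r := hr.two_le
  have hQr : Nat.card Q = r + 1 := by
    obtain ⟨s, rfl⟩ : ∃ s, r = s + 1 := ⟨r - 1, by omega⟩
    have e1 : (s + 1) * (s + 1) - 1 = (s + 2) * s := by
      have : (s + 1) * (s + 1) = (s + 2) * s + 1 := by ring
      omega
    rw [e1, Nat.add_sub_cancel] at hcardle
    have h2 : Nat.card Q ≤ s + 2 := Nat.le_of_mul_le_mul_right hcardle (by omega)
    have h3 : (s + 1) ∣ Nat.card Q - 1 := (Nat.modEq_iff_dvd' hQ1.le).1 hQmod.symm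
    have h4 : s + 1 ≤ Nat.card Q - 1 := Nat.le_of_dvd (by omega) h3
    omega
  have hbij : Function.Bijective Φ := by
    apply hΦ.bijective_of_nat_card_le
    rw [Nat.card_prod, card_ne_one, card_ne_one, hc, hYr, hQr]
    obtain ⟨s, rfl⟩ : ∃ s, r = s + 1 := ⟨r - 1, by omega⟩
    have : (s + 1) * (s + 1) = (s + 2) * s + 1 := by ring
    rw [this, Nat.add_sub_cancel, Nat.add_sub_cancel]
  have hcov : ∀ z ∈ Y, z ≠ 1 → ∃ g ∈ Q, g z ∈ F := by
    intro z hz hz1
    obtain ⟨⟨g, y⟩, hgy⟩ := hbij.2 ⟨z, hz, hz1⟩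
    refine ⟨g, g.2, ?_⟩
    have h1 : (g : MulAut V)⁻¹ (y : V) = z := congrArg Subtype.val hgy
    rw [← h1, MulAut.apply_inv_self]
    exact y.2.1
  -- (4)
  have hodd : Odd r := hr.odd_of_ne_two hr2
  have heven : 2 ∣ Nat.card Q := by
    rw [hQr]
    obtain ⟨k, hk⟩ := hodd
    exact ⟨k + 1, by omega⟩
  have : Fact (Nat.Prime 2) := ⟨Nat.prime_two⟩
  obtain ⟨t, ht⟩ := exists_prime_orderOf_dvd_card' (G := Q) 2 heven
  have ht1 : (t : MulAut V) ≠ 1 := by
    intro h
    have : t = 1 := Subtype.ext h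
    rw [this, orderOf_one] at ht
    omega
  have htt : (t : MulAut V) * t = 1 := by
    have h1 : t ^ 2 = 1 := by rw [← ht, pow_orderOf_eq_one]
    have h2 := congrArg Subtype.val h1
    rw [pow_two] at h2
    exact h2
  have hty : ∀ y ∈ Y, (t : MulAut V) y = y⁻¹ := by
    intro y hy
    have htz : (t : MulAut V) (y * (t : MulAut V) y) = y * (t : MulAut V) y := by
      rw [map_mul, ← MulAut.mul_apply, htt, mul_comm]
      rfl
    by_contra hne
    have hz1 : y * (t : MulAut V) y ≠ 1 := by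
      intro h
      exact hne (eq_inv_of_mul_eq_one_right h)
    have hzY : y * (t : MulAut V) y ∈ Y := Y.mul_mem hy (hQY _ t.2 _ hy)
    obtain ⟨g, hg, hgz⟩ := hcov _ hzY hz1
    have hgt : (g * (t : MulAut V)) (y * (t : MulAut V) y) = g (y * (t : MulAut V) y) := by
      rw [MulAut.mul_apply, htz]
    refine hz1 (key1 g hg (g * t) (Q.mul_mem hg t.2) ?_ _ hzY hgz.2 ?_)
    · intro h
      exact ht1 (mul_eq_left.1 h.symm)
    · rw [hgt]
      exact hgz.2
  have hF1 : F ≠ ⊥ := by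
    intro h
    have := Subgroup.card_eq_one.2 h
    omega
  obtain ⟨y, hy1⟩ := (Subgroup.ne_bot_iff_exists_ne_one (H := F)).1 hF1
  apply hy1
  apply Subtype.ext
  refine key1 1 Q.one_mem t t.2 ht1.symm (y : V) (hFY y.2) y.2.2 ?_
  rw [hty _ (hFY y.2), map_inv, y.2.2]

end Pool.Agent.Helper87.SG.ENDL
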