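import Pool.Agent.Helper52.SG.Goals

/-!
# Project SG (MP_0a002a_al), packet PFIN
-/

set_option autoImplicit false

namespace Pool.Agent.Helper87.SG.PFIN

open Subgroup Pool.H83Shunkov Pool.Agent.Helper29.SH Pool.Agent.Helper52.SG

/-- Normalizers grow in finite `p`-groups. -/
theorem exists_normalizes {G : Type} [Group G] {p : ℕ} (hp : p.Prime) (D X : Subgroup G)
    (hfin : (D : Set G).Finite) (hD : IsPGroup p D) (hX : X ≤ D) (hne : X ≠ D) :
    ∃ d ∈ D, d ∉ X ∧ d ∈ normalizer (X : Set G) := by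
  have : Fact p.Prime := ⟨hp⟩
  have : Finite D := hfin
  have : Group.IsNilpotent D := IsPGroup.isNilpotent hD
  have h1 : X.subgroupOf D < ⊤ := by
    rw [lt_top_iff_ne_top]
    intro h
    rw [Subgroup.subgroupOf_eq_top] at h
    exact hne (le_antisymm hX h)
  have h2 := (Group.normalizerCondition_of_isNilpotent (G := D)) _ h1
  obtain ⟨d, hd1, hd2⟩ := SetLike.exists_of_lt h2
  refine ⟨d, d.2, fun h => hd2 (Subgroup.mem_subgroupOf.2 h), ?_⟩
  rw [Subgroup.mem_normalizer_iff] at hd1 ⊢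
  intro x
  constructor
  · intro hx
    have := (hd1 ⟨x, hX hx⟩).1 (Subgroup.mem_subgroupOf.2 hx)
    exact Subgroup.mem_subgroupOf.1 this
  · intro hx
    have hxD : x ∈ D := by
      have h3 : (d : G)⁻¹ * ((d : G) * x * (d : G)⁻¹) * (d : G) ∈ D :=
        D.mul_mem (D.mul_mem (D.inv_mem d.2) (hX hx)) d.2
      have e : (d : G)⁻¹ * ((d : G) * x * (d : G)⁻¹) * (d : G) = x := by group
      rwa [e] at h3
    have := (hd1 ⟨x, hxD⟩).2 (Subgroup.mem_subgroupOf.2 hx)
    exact Subgroup.mem_subgroupOf.1 this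

theorem isOfFinOrder_of_mem {G : Type} [Group G] (D : Subgroup G) (hfin : (D : Set G).Finite)
    {x : G} (hx : x ∈ D) : IsOfFinOrder x := by
  have : Finite D := hfin
  have h : IsOfFinOrder (⟨x, hx⟩ : D) := isOfFinOrder_of_finite _
  exact MonoidHom.isOfFinOrder D.subtype h

/-- Packet PFIN. -/
theorem t (hTORN : S_TORN) : S_PFIN := by
  intro G _ a p hst B haB hB
  let P : Subgroup G → Prop := fun M => M ≤ B ∧ (M : Set G).Finite ∧ a ∈ M
  obtain ⟨D, hPD, hDmax⟩ := h_MAX G a hst.nlf P (fun M hM => ⟨hM.2.2, hM.2.1⟩)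
    ⟨zpowers a, by
      refine ⟨(zpowers_le).2 haB, ?_, mem_zpowers a⟩
      exact hst.fin_order.finite_zpowers⟩
  have hDB : D ≤ B := hPD.1
  have hDf : (D : Set G).Finite := hPD.2.1
  have haD : a ∈ D := hPD.2.2
  have hDfin : Finite D := hDf
  have key : ∀ n : ℕ, ∀ E : Subgroup G, P E →
      Nat.card D - Nat.card (D ⊓ E : Subgroup G) ≤ n → E ≤ D := by
    intro n
    induction n using Nat.strong_induction_on with
    | _ n ih =>
      intro E hE hn
      by_contra hED
      obtain ⟨hEB, hEf, haE⟩ := hE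
      have hXD : D ⊓ E ≤ D := inf_le_left
      have hXE : D ⊓ E ≤ E := inf_le_right
      have hneE : D ⊓ E ≠ E := by
        intro h
        exact hED (h ▸ hXD)
      have hneD : D ⊓ E ≠ D := by
        intro h
        have hDE : D ≤ E := by
          intro x hx
          rw [← h] at hx
          exact hx.2
        exact hED (hDmax E ⟨hEB, hEf, haE⟩ hDE)
      obtain ⟨d, hdD, hdX, hdN⟩ := exists_normalizes hst.hp D (D ⊓ E) hDf (hB D hDB hDf haD)
        hXD hneD
      obtain ⟨e, heE, heX, heN⟩ := exists_normalizes hst.hp E (D ⊓ E) hEf (hB E hEB hEf haE)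
        hXE hneE
      have hXf : ((D ⊓ E : Subgroup G) : Set G).Finite := hDf.subset hXD
      obtain ⟨T, hTf, hT⟩ := hTORN G a p hst (D ⊓ E) hXf
        ⟨1, by simpa using And.intro haD haE⟩
      have hmemT : ∀ x : G, x ∈ normalizer ((D ⊓ E : Subgroup G) : Set G) → IsOfFinOrder x →
          x ∈ T := by
        intro x hx1 hx2
        have : x ∈ (T : Set G) := by
          rw [hT]
          exact ⟨hx1, hx2⟩
        exact this
      have hdT : d ∈ T := hmemT d hdN (isOfFinOrder_of_mem D hDf hdD)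
      have heT : e ∈ T := hmemT e heN (isOfFinOrder_of_mem E hEf heE)
      have hXT : D ⊓ E ≤ T := fun x hx =>
        hmemT x (Subgroup.le_normalizer hx) (isOfFinOrder_of_mem D hDf hx.1)
      have hPK : P (T ⊓ B) := ⟨inf_le_right, hTf.subset (fun x hx => hx.1),
        ⟨hXT ⟨haD, haE⟩, haB⟩⟩
      have hlt : Nat.card (D ⊓ E : Subgroup G) < Nat.card (D ⊓ (T ⊓ B) : Subgroup G) := by
        have : Finite (D ⊓ (T ⊓ B) : Subgroup G) := hDf.subset (fun x hx => hx.1)
        have hle : D ⊓ E ≤ D ⊓ (T ⊓ B) := fun x hx => ⟨hx.1, hXT hx, hDB hx.1⟩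
        refine lt_of_le_of_ne (Subgroup.card_le_of_le hle) ?_
        intro h
        have h2 : D ⊓ E = D ⊓ (T ⊓ B) := Subgroup.eq_of_le_of_card_ge hle h.ge
        apply hdX
        rw [h2]
        exact ⟨hdD, hdT, hDB hdD⟩
      have hle2 : Nat.card (D ⊓ (T ⊓ B) : Subgroup G) ≤ Nat.card D :=
        Subgroup.card_le_of_le inf_le_left
      have hKD : T ⊓ B ≤ D :=
        ih (Nat.card D - Nat.card (D ⊓ (T ⊓ B) : Subgroup G)) (by omega) (T ⊓ B) hPK le_rfl
      exact heX ⟨hKD ⟨heT, hEB heE⟩, heE⟩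
  exact ⟨D, hDB, hDf, haD, fun K hKB hKf haK => key _ K ⟨hKB, hKf, haK⟩ le_rfl⟩

end Pool.Agent.Helper87.SG.PFIN
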